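import Pool.Agent.Helper32_NJ.Stmts

/-!
# DEG: the three polynomials are linear forms
-/

set_option autoImplicit false

namespace Pool.Agent.NJ.H47

open Pool.Agent.NJ Polynomial UniqueFactorizationMonoid

/-- The degree of the radical is at most the number of distinct roots. -/
theorem radDeg (P : ℂ[X]) (hP : P ≠ 0) : (radical P).natDegree ≤ P.roots.toFinset.card := by
  classical
  have hsq : Squarefree (radical P) := squarefree_radical
  have hne : radical P ≠ 0 := radical_ne_zero
  have hsep : (radical P).Separable := PerfectField.separable_iff_squarefree.2 hsq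
  have h1 : (radical P).natDegree = (radical P).roots.card :=
    (IsAlgClosed.splits (radical P)).natDegree_eq_card_roots
  have h2 : (radical P).roots.Nodup := nodup_roots hsep
  rw [h1, ← Multiset.toFinset_card_of_nodup h2]
  refine Finset.card_le_card fun t ht => ?_
  rw [Multiset.mem_toFinset, mem_roots hne] at ht
  rw [Multiset.mem_toFinset, mem_roots hP]
  exact ht.dvd radical_dvd_self

/-- A polynomial of degree 2 with one root. -/
theorem oneRoot (f : ℂ[X]) (hd : f.natDegree = 2) (h : f.roots.toFinset.card ≤ 1) :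
    ∃ (a α : ℂ), a ≠ 0 ∧ f.IsRoot α ∧ ∀ t, f.eval t = a * (t - α) ^ 2 := by
  classical
  have hf0 : f ≠ 0 := by
    rintro rfl
    simp at hd
  have h1 := (IsAlgClosed.splits f).natDegree_eq_card_roots
  have h2 := (IsAlgClosed.splits f).eq_prod_roots
  rw [hd] at h1
  have hne : f.roots ≠ 0 := by
    intro h0
    rw [h0] at h1
    simp at h1
  obtain ⟨α, hα⟩ := Multiset.exists_mem_of_ne_zero hne
  have h3 : f.roots = Multiset.replicate 2 α := by
    rw [Multiset.eq_replicate]
    refine ⟨h1.symm, fun b hb => ?_⟩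
    exact Finset.card_le_one.1 h b (Multiset.mem_toFinset.2 hb) α (Multiset.mem_toFinset.2 hα)
  refine ⟨f.leadingCoeff, α, leadingCoeff_ne_zero.2 hf0, (mem_roots hf0).1 hα, fun t => ?_⟩
  rw [h3, Multiset.map_replicate, Multiset.prod_replicate] at h2
  conv_lhs => rw [h2]
  rw [eval_mul, eval_C, eval_pow, eval_sub, eval_X, eval_C]

theorem hasRoot (f : ℂ[X]) (hd : f.natDegree = 2) : f.roots.toFinset.Nonempty := by
  classical
  have h1 := (IsAlgClosed.splits f).natDegree_eq_card_roots
  rw [hd] at h1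
  have hne : f.roots ≠ 0 := by
    intro h0
    rw [h0] at h1
    simp at h1
  obtain ⟨α, hα⟩ := Multiset.exists_mem_of_ne_zero hne
  exact ⟨α, Multiset.mem_toFinset.2 hα⟩

theorem disjRoots {f g : ℂ[X]} (h : IsCoprime f g) (hf : f ≠ 0) (hg : g ≠ 0) :
    Disjoint f.roots.toFinset g.roots.toFinset := by
  classical
  rw [Finset.disjoint_left]
  intro t ht ht'
  rw [Multiset.mem_toFinset, mem_roots hf] at ht
  rw [Multiset.mem_toFinset, mem_roots hg] at ht'
  obtain ⟨a, b, hab⟩ := h
  have := congrArg (eval t) hab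
  rw [eval_add, eval_mul, eval_mul, ht.eq_zero, ht'.eq_zero] at this
  simp at this

/-- No three squares of distinct linear forms with sum zero. -/
theorem noSquares (f g h : ℂ[X]) (hf : f ≠ 0) (hg : g ≠ 0) (hh : h ≠ 0) (hsum : f + g + h = 0)
    (hfg : IsCoprime f g) (hgh : IsCoprime g h) (hhf : IsCoprime h f)
    (df : f.natDegree = 2) (dg : g.natDegree = 2) (dh : h.natDegree = 2)
    (hc : (f * g * h).roots.toFinset.card ≤ 3) : False := by
  classical
  have hr : (f * g * h).roots.toFinset =
      f.roots.toFinset ∪ g.roots.toFinset ∪ h.roots.toFinset := by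
    rw [roots_mul (mul_ne_zero (mul_ne_zero hf hg) hh), roots_mul (mul_ne_zero hf hg),
      Multiset.toFinset_add, Multiset.toFinset_add]
  have d1 := disjRoots hfg hf hg
  have d2 := disjRoots hgh hg hh
  have d3 := disjRoots hhf hh hf
  have hcard : (f * g * h).roots.toFinset.card =
      f.roots.toFinset.card + g.roots.toFinset.card + h.roots.toFinset.card := by
    rw [hr, Finset.card_union_of_disjoint, Finset.card_union_of_disjoint d1]
    rw [Finset.disjoint_union_left]
    exact ⟨d3.symm, d2⟩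
  have n1 := (hasRoot f df).card_pos
  have n2 := (hasRoot g dg).card_pos
  have n3 := (hasRoot h dh).card_pos
  obtain ⟨a, α, ha, rα, ea⟩ := oneRoot f df (by omega)
  obtain ⟨b, β, hb, rβ, eb⟩ := oneRoot g dg (by omega)
  obtain ⟨c, γ, hc, rγ, ec⟩ := oneRoot h dh (by omega)
  have hβγ : β ≠ γ := by
    intro e
    rw [Finset.disjoint_left] at d2
    exact d2 (Multiset.mem_toFinset.2 ((mem_roots hg).2 rβ))
      (Multiset.mem_toFinset.2 ((mem_roots hh).2 (e ▸ rγ)))
  have hγα : γ ≠ α := by
    intro e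
    rw [Finset.disjoint_left] at d3
    exact d3 (Multiset.mem_toFinset.2 ((mem_roots hh).2 rγ))
      (Multiset.mem_toFinset.2 ((mem_roots hf).2 (e ▸ rα)))
  have key : ∀ t, a * (t - α) ^ 2 + b * (t - β) ^ 2 + c * (t - γ) ^ 2 = 0 := by
    intro t
    rw [← ea, ← eb, ← ec, ← eval_add, ← eval_add, hsum, eval_zero]
  have k1 := key α
  have k2 := key β
  have k3 := key γ
  have h2 : 2 * c * (β - γ) ^ 2 * (γ - α) ^ 2 = 0 := by
    linear_combination (γ - β) ^ 2 * k1 + (γ - α) ^ 2 * k2 - (α - β) ^ 2 * k3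
  have h3 : (2 : ℂ) * c * (β - γ) ^ 2 * (γ - α) ^ 2 ≠ 0 :=
    mul_ne_zero (mul_ne_zero (mul_ne_zero two_ne_zero hc) (pow_ne_zero _ (sub_ne_zero.2 hβγ)))
      (pow_ne_zero _ (sub_ne_zero.2 hγα))
  exact h3 h2

theorem deg : DEGStmt := by
  classical
  intro δ x y z hδ hx hy hz hsum hcop hnc hF
  set φ := algebraMap ℚ ℂ with hφ
  have hφi : Function.Injective φ := φ.injective
  have mne : ∀ p : ℚ[X], p ≠ 0 → p.map φ ≠ 0 := fun p hp =>
    (Polynomial.map_ne_zero_iff hφi).2 hp
  have mdeg : ∀ p : ℚ[X], (p.map φ).natDegree = p.natDegree := fun p =>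
    natDegree_map_eq_of_injective hφi p
  have hyz : IsCoprime y z := by
    have : z = -(x + y * 1) := by linear_combination hsum
    rw [this, IsCoprime.neg_right_iff]
    exact IsCoprime.add_mul_left_right hcop.symm 1
  have hzx : IsCoprime z x := by
    have : z = -(y + x * 1) := by linear_combination hsum
    rw [this, IsCoprime.neg_left_iff]
    exact (IsCoprime.add_mul_left_right hcop 1).symm
  have mcop : ∀ p q : ℚ[X], IsCoprime p q → IsCoprime (p.map φ) (q.map φ) := fun p q h =>
    h.map (mapRingHom φ)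
  have msum : x.map φ + y.map φ + z.map φ = 0 := by
    rw [← Polynomial.map_add, ← Polynomial.map_add, hsum, Polynomial.map_zero]
  -- the set of the roots
  have hprod : x.map φ * y.map φ * z.map φ = (x * y * z).map φ := by
    rw [Polynomial.map_mul, Polynomial.map_mul]
  have hxyz : (x * y * z).map φ ≠ 0 := mne _ (mul_ne_zero (mul_ne_zero hx hy) hz)
  have hroot : ∀ t ∈ ((x.map φ * y.map φ * z.map φ).roots.toFinset : Finset ℂ),
      aeval t (x * y * z) = 0 ∨ Odd ((δ.map (algebraMap ℚ ℂ)).rootMultiplicity t) := by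
    intro t ht
    left
    rw [hprod, Multiset.mem_toFinset, mem_roots hxyz] at ht
    have h1 := ht.eq_zero
    rw [eval_map] at h1
    exact h1
  obtain ⟨hF1, hF2⟩ := hF _ hroot
  have hrad := radDeg (x.map φ * y.map φ * z.map φ) (by rw [hprod]; exact hxyz)
  rcases Polynomial.abc (mne x hx) (mne y hy) (mne z hz) (mcop x y hcop) msum with
    ⟨h1, h2, h3⟩ | ⟨h1, h2, _⟩
  · rw [mdeg] at h1 h2 h3
    by_contra hcon
    have h4 : ¬ ((x.map φ * y.map φ * z.map φ).roots.toFinset.card ≤ 2) := by
      intro h5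
      apply hcon
      refine ⟨?_, ?_, ?_⟩ <;> omega
    have h5 : x.natDegree = y.natDegree ∧ y.natDegree = z.natDegree ∧
        Even (δ.natDegree + x.natDegree) := by
      by_contra h6
      exact h4 (hF2 h6)
    obtain ⟨h6, h7, _⟩ := h5
    have h8 : x.natDegree = 2 := by
      have : ¬ x.natDegree ≤ 1 := fun h => hcon ⟨h, by omega, by omega⟩
      omega
    exact noSquares (x.map φ) (y.map φ) (z.map φ) (mne x hx) (mne y hy) (mne z hz) msum
      (mcop x y hcop) (mcop y z hyz) (mcop z x hzx) (by rw [mdeg]; exact h8)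
      (by rw [mdeg]; omega) (by rw [mdeg]; omega) hF1
  · exfalso
    apply hnc
    rw [← mdeg x, ← mdeg y]
    exact ⟨derivative_eq_zero.1 h1, derivative_eq_zero.1 h2⟩

end Pool.Agent.NJ.H47
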