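import Pool.Agent.Helper32_NJ.Stmts

/-!
# RK0: the rank of a curve all of whose points are killed by 2
-/

set_option autoImplicit false

namespace Pool.Agent.NJ.H47

open Pool.Agent.NJ

theorem rk0 : RK0Stmt := by
  classical
  intro F _ W h
  unfold rk
  rw [rank_eq_zero_iff]
  intro P
  refine ⟨2, two_ne_zero, ?_⟩
  rcases P with _ | ⟨X, Y, hP⟩
  · exact smul_zero _
  · have h1 : Y = W.toAffine.negY X Y := by
      have h2 := h X Y hP.1
      unfold WeierstrassCurve.Affine.negY
      linear_combination h2
    rw [two_smul]
    exact WeierstrassCurve.Affine.Point.add_of_Y_eq rfl h1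

end Pool.Agent.NJ.H47
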